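import Mathlib
import Pool.Agent.Helper99.BootInf

set_option autoImplicit false

/-!
# Polluted bootstrap percolation: no regime with `q > q_c` and `γ(q) = ∞`

We use the definitions of the problem verbatim, for every dimension `d` and threshold `r`
(the question is the case `d = 3`, `r = 2`).  A configuration assigns to each site of `ℤ^d` one of
the three states `0` (empty), `1` (initially occupied), `2` (closed).

Idea of the proof: write `o = 1 - q`, `s = p / (1 - q)`, so that a site is open with probability `o`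
and an open site is initially occupied with probability `s`.  Exploring the process by first
revealing all marks and then running the dynamics (revealing whether a site is open only when
this matters) and using an OSSS type inequality one gets in finite volume
`φ (1 - φ) ≤ s ∂φ/∂s + (max_x φ_x) ∂φ/∂o`, which is then integrated along the curve
`(s e^{-t}, o - κ (1 - e^{-t}))` by a continuity argument.
-/

open MeasureTheory Filter Topology
open scoped ENNReal

namespace Pool.Agent.Results.MP_33582f_pr.SharpSmallP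

/-- Law of the initial state of one site: `1` (occupied) with probability `p`, `2` (closed) with
probability `q`, `0` (empty) with probability `1 - p - q`.  For inadmissible parameters the value is
irrelevant (we take the site to be closed). -/
noncomputable def siteLaw (p q : ℝ) : Measure (Fin 3) :=
  if 0 ≤ p ∧ 0 ≤ q ∧ p + q ≤ 1 then
    ENNReal.ofReal p • Measure.dirac 1 + ENNReal.ofReal q • Measure.dirac 2
      + ENNReal.ofReal (1 - p - q) • Measure.dirac 0
  else Measure.dirac 2

/-- `occ d r c t` is the set of sites of `ℤ^d` that are occupied at time `t` when the initial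
configuration is `c` and the threshold is `r`: an empty site with at least `r` occupied nearest
neighbours (sites at `ℓ¹` distance `1`) becomes occupied; occupied sites stay occupied and closed
sites never change. -/
def occ (d r : ℕ) (c : (Fin d → ℤ) → Fin 3) : ℕ → Set (Fin d → ℤ)
  | 0 => {x | c x = 1}
  | t + 1 => occ d r c t ∪
      {x | c x = 0 ∧ (r : ℕ∞) ≤ {y | y ∈ occ d r c t ∧ ∑ i, |x i - y i| = 1}.encard}

/-- `φ(p, q)`: the probability that the origin is occupied at some finite time. -/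
noncomputable def phi (d r : ℕ) (p q : ℝ) : ℝ :=
  (Measure.infinitePi (fun _ : Fin d → ℤ => siteLaw p q)).real
    {c | ∃ t : ℕ, (0 : Fin d → ℤ) ∈ occ d r c t}

/-- `φ⁺(q) = lim_{p → 0+} φ(p, q)`. -/
noncomputable def phiPlus (d r : ℕ) (q : ℝ) : ℝ :=
  limUnder (𝓝[>] (0 : ℝ)) (fun p => phi d r p q)

/-- `q_c = inf {q : φ⁺(q) = 0}`. -/
noncomputable def qc (d r : ℕ) : ℝ := sInf {q : ℝ | 0 ≤ q ∧ q ≤ 1 ∧ phiPlus d r q = 0}

/-- `γ(q) = limsup_{p → 0+} p⁻¹ φ(p, q) ∈ [0, ∞]`. -/
noncomputable def gam (d r : ℕ) (q : ℝ) : ℝ≥0∞ :=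
  limsup (fun p : ℝ => ENNReal.ofReal (p⁻¹ * phi d r p q)) (𝓝[>] (0 : ℝ))

/-! ### Basic facts on the site law -/

instance siteLaw_prob (p q : ℝ) : IsProbabilityMeasure (siteLaw p q) := by
  unfold siteLaw
  split_ifs with h
  · constructor
    simp only [Measure.coe_add, Measure.coe_smul, Pi.add_apply, Pi.smul_apply, measure_univ,
      smul_eq_mul, mul_one]
    rw [← ENNReal.ofReal_add h.1 h.2.1, ← ENNReal.ofReal_add (by linarith [h.1, h.2.1])
      (by linarith [h.2.2])]
    simp
  · infer_instance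

lemma siteLaw_values {s o : ℝ} (hs0 : 0 ≤ s) (hs1 : s ≤ 1) (ho0 : 0 ≤ o) (ho1 : o ≤ 1) :
    siteLaw (o * s) (1 - o) {1} = ENNReal.ofReal (o * s) ∧
    siteLaw (o * s) (1 - o) {0} = ENNReal.ofReal (o * (1 - s)) ∧
    siteLaw (o * s) (1 - o) {2} = ENNReal.ofReal (1 - o) := by
  have h : 0 ≤ o * s ∧ 0 ≤ 1 - o ∧ o * s + (1 - o) ≤ 1 := by
    refine ⟨by positivity, by linarith, by nlinarith⟩
  unfold siteLaw
  rw [if_pos h]
  have e : 1 - o * s - (1 - o) = o * (1 - s) := by ring
  rw [e]
  refine ⟨?_, ?_, ?_⟩ <;> simp [Measure.dirac_apply' _ (measurableSet_singleton _)]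

/-! ### The dynamics -/

lemma occ_mono_succ (d r : ℕ) (c : (Fin d → ℤ) → Fin 3) (t : ℕ) :
    occ d r c t ⊆ occ d r c (t + 1) := by
  intro x hx
  exact Or.inl hx

lemma occ_mono (d r : ℕ) (c : (Fin d → ℤ) → Fin 3) : Monotone (occ d r c) :=
  monotone_nat_of_le_succ (occ_mono_succ d r c)

/-- The activation rule on the lattice. -/
def rule (d r : ℕ) (x : Fin d → ℤ) (B : Set (Fin d → ℤ)) : Prop :=
  (r : ℕ∞) ≤ {y | y ∈ B ∧ ∑ i, |x i - y i| = 1}.encard

lemma rule_mono (d r : ℕ) : ∀ (x : Fin d → ℤ) (B B' : Set (Fin d → ℤ)), B ⊆ B' →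
    rule d r x B → rule d r x B' := by
  intro x B B' hB h
  exact h.trans (Set.encard_le_encard (fun y hy => ⟨hB hy.1, hy.2⟩))

/-- A rule that holds for a set already holds thanks to a finite subset. -/
lemma rule_finite {d r : ℕ} {x : Fin d → ℤ} {B : Set (Fin d → ℤ)} (h : rule d r x B) :
    ∃ S : Finset (Fin d → ℤ), (S : Set (Fin d → ℤ)) ⊆ B ∧ rule d r x S := by
  obtain ⟨T, hT, hTc⟩ := Set.exists_subset_encard_eq h
  have hfin : T.Finite := by
    apply Set.finite_of_encard_eq_coe hTc
  refine ⟨hfin.toFinset, ?_, ?_⟩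
  · intro y hy
    have : y ∈ T := by simpa using hy
    exact (hT this).1
  · unfold rule
    rw [← hTc]
    apply Set.encard_le_encard
    intro y hy
    exact ⟨by simpa using hy, (hT hy).2⟩

open Pool.Agent.Helper99.Boot in
lemma event_eq (d r : ℕ) (z : Fin d → ℤ) :
    {c : (Fin d → ℤ) → Fin 3 | ∃ t : ℕ, z ∈ occ d r c t}
      = ⋃ W : Finset (Fin d → ℤ), finEvent (rule d r) W z := by
  ext c
  simp only [Set.mem_iUnion]
  constructor
  · rintro ⟨t, ht⟩
    -- induction on the time
    have key : ∀ t : ℕ, ∀ x ∈ occ d r c t, ∃ W : Finset (Fin d → ℤ), c ∈ finEvent (rule d r) W x := by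
      intro t
      induction t with
      | zero =>
        intro x hx
        have hx1 : c x = 1 := hx
        refine ⟨{x}, ?_⟩
        apply Cl_closed (act_mono (rule_mono d r) _) ∅ _ x
        · rw [Finset.mem_filter, hx1]
          exact ⟨Finset.mem_singleton_self x, by decide⟩
        · exact Or.inl hx1
      | succ t ih =>
        intro x hx
        rcases hx with hx | ⟨hx0, hxr⟩
        · exact ih x hx
        · obtain ⟨S, hSB, hS⟩ := rule_finite (d := d) (r := r) (x := x) hxr
          have hch : ∀ y : Fin d → ℤ, ∃ W : Finset (Fin d → ℤ), y ∈ S →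
              c ∈ finEvent (rule d r) W y := by
            intro y
            by_cases hy : y ∈ S
            · obtain ⟨W, hW⟩ := ih y (hSB (by simpa using hy))
              exact ⟨W, fun _ => hW⟩
            · exact ⟨∅, fun h => absurd h hy⟩
          choose Wf hWf using hch
          refine ⟨insert x (S.biUnion Wf), ?_⟩
          apply Cl_closed (act_mono (rule_mono d r) _) ∅ _ x
          · rw [Finset.mem_filter, hx0]
            exact ⟨Finset.mem_insert_self _ _, by decide⟩
          · right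
            apply rule_mono d r x S _ _ hS
            intro y hy
            have hy' : y ∈ S := by simpa using hy
            have hsub : Wf y ⊆ insert x (S.biUnion Wf) :=
              (Finset.subset_biUnion_of_mem Wf hy').trans (Finset.subset_insert _ _)
            exact finEvent_mono (rule_mono d r) y hsub (hWf y hy')
    exact key t z ht
  · rintro ⟨W, hW⟩
    have hsub : Cl (act (rule d r) {x | c x = 1}) ∅ (W.filter (fun y => c y ≠ 2))
        ⊆ ⋃ t : ℕ, occ d r c t := by
      apply Cl_subset (Set.empty_subset _)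
      intro y hy ha
      rw [Set.mem_iUnion]
      have hy2 : c y ≠ 2 := (Finset.mem_filter.mp hy).2
      have h3 : c y = 0 ∨ c y = 1 ∨ c y = 2 := by
        generalize c y = v
        fin_cases v <;> simp
      rcases h3 with h0 | h1 | h2
      · rcases ha with ha | ha
        · have hcon : c y = 1 := ha
          rw [h0] at hcon
          exact absurd hcon (by decide)
        · obtain ⟨S, hSB, hS⟩ := rule_finite ha
          have hT : ∃ T : ℕ, ∀ y' ∈ S, y' ∈ occ d r c T := by
            have hch : ∀ y' : Fin d → ℤ, ∃ t : ℕ, y' ∈ S → y' ∈ occ d r c t := by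
              intro y'
              by_cases hy' : y' ∈ S
              · obtain ⟨t, ht⟩ := Set.mem_iUnion.mp (hSB (by simpa using hy'))
                exact ⟨t, fun _ => ht⟩
              · exact ⟨0, fun h => absurd h hy'⟩
            choose tf htf using hch
            refine ⟨S.sup tf, fun y' hy' => ?_⟩
            exact occ_mono d r c (Finset.le_sup hy') (htf y' hy')
          obtain ⟨T, hT⟩ := hT
          refine ⟨T + 1, Or.inr ⟨h0, ?_⟩⟩
          exact rule_mono d r y S _ (fun y' hy' => hT y' (by simpa using hy')) hS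
      · exact ⟨0, h1⟩
      · exact absurd h2 hy2
    exact Set.mem_iUnion.mp (hsub hW)

open Pool.Agent.Helper99.Boot in
lemma measurableSet_finEvent {α : Type*} [DecidableEq α] (rl : α → Set α → Prop)
    (W : Finset α) (z : α) : MeasurableSet (finEvent rl W z) := by
  classical
  have hE : finEvent rl W z
      = ⋃ p ∈ ((W.powerset.sigma (fun ω => ω.powerset)).filter
          (fun p => z ∈ Cl (act rl (p.2 : Set α)) ∅ p.1)),
          Set.pi (W : Set α) (fun y => {pat p.2 p.1 y}) := by
    ext c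
    simp only [Set.mem_iUnion]
    constructor
    · intro hc
      obtain ⟨ω, hω, σ, hσ, hcp⟩ := exists_pat W c
      rw [Finset.mem_powerset] at hω hσ
      refine ⟨⟨ω, σ⟩, ?_, hcp⟩
      rw [Finset.mem_filter, Finset.mem_sigma, Finset.mem_powerset, Finset.mem_powerset]
      exact ⟨⟨hω, hσ⟩, (finEvent_eq rl W z c hσ hω hcp).mp hc⟩
    · rintro ⟨⟨ω, σ⟩, hp, hcp⟩
      rw [Finset.mem_filter, Finset.mem_sigma, Finset.mem_powerset, Finset.mem_powerset] at hp
      exact (finEvent_eq rl W z c hp.1.2 hp.1.1 hcp).mpr hp.2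
  rw [hE]
  apply Finset.measurableSet_biUnion
  intro p _
  exact MeasurableSet.pi (Finset.countable_toSet W) (fun _ _ => measurableSet_singleton _)

lemma measurableSet_event (d r : ℕ) (z : Fin d → ℤ) :
    MeasurableSet {c : (Fin d → ℤ) → Fin 3 | ∃ t : ℕ, z ∈ occ d r c t} := by
  rw [event_eq]
  exact MeasurableSet.iUnion (fun W => measurableSet_finEvent _ W z)

/-! ### Translation invariance -/

lemma occ_shift (d r : ℕ) (z : Fin d → ℤ) (c : (Fin d → ℤ) → Fin 3) (t : ℕ) :
    ∀ x, x ∈ occ d r (fun y => c (y + z)) t ↔ x + z ∈ occ d r c t := by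
  induction t with
  | zero => intro x; rfl
  | succ t ih =>
    intro x
    have e : {y | y ∈ occ d r (fun y => c (y + z)) t ∧ ∑ i, |x i - y i| = 1}.encard
        = {y | y ∈ occ d r c t ∧ ∑ i, |(x + z) i - y i| = 1}.encard := by
      rw [← (Equiv.addRight z).injective.encard_image]
      congr 1
      ext y
      constructor
      · rintro ⟨y', ⟨h1, h2⟩, rfl⟩
        refine ⟨(ih y').mp h1, ?_⟩
        simpa using h2
      · rintro ⟨h1, h2⟩
        refine ⟨y - z, ⟨?_, ?_⟩, ?_⟩
        · rw [ih]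
          simpa using h1
        · rw [← h2]
          apply Finset.sum_congr rfl
          intro i _
          simp only [Pi.sub_apply, Pi.add_apply]
          congr 1
          ring
        · simp
    constructor
    · rintro (h | ⟨h0, h1⟩)
      · exact Or.inl ((ih x).mp h)
      · exact Or.inr ⟨h0, by rw [← e]; exact h1⟩
    · rintro (h | ⟨h0, h1⟩)
      · exact Or.inl ((ih x).mpr h)
      · exact Or.inr ⟨h0, by rw [e]; exact h1⟩

lemma shift_measurePreserving (d : ℕ) (μ : Measure (Fin 3)) [IsProbabilityMeasure μ]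
    (z : Fin d → ℤ) :
    MeasurePreserving (fun (c : (Fin d → ℤ) → Fin 3) (y : Fin d → ℤ) => c (y + z))
      (Measure.infinitePi (fun _ : Fin d → ℤ => μ))
      (Measure.infinitePi (fun _ : Fin d → ℤ => μ)) := by
  have hm : Measurable (fun (c : (Fin d → ℤ) → Fin 3) (y : Fin d → ℤ) => c (y + z)) := by
    fun_prop
  refine ⟨hm, ?_⟩
  apply Measure.eq_infinitePi
  intro s t ht
  rw [Measure.map_apply hm (MeasurableSet.pi (Finset.countable_toSet s) (fun _ _ => ht _))]
  have e : (fun (c : (Fin d → ℤ) → Fin 3) (y : Fin d → ℤ) => c (y + z)) ⁻¹' (Set.pi (s : Set (Fin d → ℤ)) t)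
      = Set.pi ((s.map (Equiv.addRight z).toEmbedding : Finset (Fin d → ℤ)) : Set (Fin d → ℤ))
          (fun y => t (y - z)) := by
    ext c
    simp only [Set.mem_preimage, Set.mem_pi, Finset.mem_coe, Finset.mem_map,
      Equiv.coe_toEmbedding, Equiv.coe_addRight]
    constructor
    · rintro h y ⟨y', hy', rfl⟩
      rw [add_sub_cancel_right]
      exact h y' hy'
    · intro h y hy
      have := h (y + z) ⟨y, hy, rfl⟩
      rwa [add_sub_cancel_right] at this
  rw [e, Measure.infinitePi_pi _ (fun _ _ => ht _), Finset.prod_map]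
  apply Finset.prod_congr rfl
  intro y _
  rw [Equiv.coe_toEmbedding, Equiv.coe_addRight, add_sub_cancel_right]

lemma meas_event_shift (d r : ℕ) (p q : ℝ) (z : Fin d → ℤ) :
    Measure.infinitePi (fun _ : Fin d → ℤ => siteLaw p q)
        {c : (Fin d → ℤ) → Fin 3 | ∃ t : ℕ, z ∈ occ d r c t}
      = Measure.infinitePi (fun _ : Fin d → ℤ => siteLaw p q)
        {c : (Fin d → ℤ) → Fin 3 | ∃ t : ℕ, (0 : Fin d → ℤ) ∈ occ d r c t} := by
  have h := (shift_measurePreserving d (siteLaw p q) z).measure_preimage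
    (measurableSet_event d r 0).nullMeasurableSet
  rw [← h]
  congr 1
  ext c
  constructor
  · rintro ⟨t, ht⟩
    refine ⟨t, ?_⟩
    rw [occ_shift]
    simpa using ht
  · rintro ⟨t, ht⟩
    refine ⟨t, ?_⟩
    have := (occ_shift d r z c t 0).mp ht
    simpa using this

/-! ### Finite volume versus infinite volume -/

open Pool.Agent.Helper99.Boot

lemma ofReal_phi (d r : ℕ) (p q : ℝ) :
    Measure.infinitePi (fun _ : Fin d → ℤ => siteLaw p q)
        {c : (Fin d → ℤ) → Fin 3 | ∃ t : ℕ, (0 : Fin d → ℤ) ∈ occ d r c t}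
      = ENNReal.ofReal (phi d r p q) := by
  unfold phi
  rw [ofReal_measureReal]

lemma phi_nonneg (d r : ℕ) (p q : ℝ) : 0 ≤ phi d r p q := measureReal_nonneg

lemma phiF_le_phi (d r : ℕ) {s o : ℝ} (hs0 : 0 ≤ s) (hs1 : s ≤ 1) (ho0 : 0 ≤ o) (ho1 : o ≤ 1)
    (W : Finset (Fin d → ℤ)) (z : Fin d → ℤ) :
    phiF (rule d r) W z s o ≤ phi d r (o * s) (1 - o) := by
  obtain ⟨h1, h0, h2⟩ := siteLaw_values hs0 hs1 ho0 ho1
  have hm := meas_finEvent (siteLaw (o * s) (1 - o)) hs0 hs1 ho0 ho1 h1 h0 h2 (rule d r) W z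
  have hle : Measure.infinitePi (fun _ : Fin d → ℤ => siteLaw (o * s) (1 - o))
      (finEvent (rule d r) W z)
      ≤ ENNReal.ofReal (phi d r (o * s) (1 - o)) := by
    rw [← ofReal_phi, ← meas_event_shift d r (o * s) (1 - o) z]
    apply measure_mono
    rw [event_eq]
    exact Set.subset_iUnion (fun W => finEvent (rule d r) W z) W
  rw [hm] at hle
  exact (ENNReal.ofReal_le_ofReal_iff (phi_nonneg _ _ _ _)).mp hle

lemma phi_le_of_phiF_le (d r : ℕ) {s o : ℝ} (hs0 : 0 ≤ s) (hs1 : s ≤ 1) (ho0 : 0 ≤ o)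
    (ho1 : o ≤ 1) {C : ℝ} (hC : 0 ≤ C)
    (h : ∀ W : Finset (Fin d → ℤ), (0 : Fin d → ℤ) ∈ W → phiF (rule d r) W 0 s o ≤ C) :
    phi d r (o * s) (1 - o) ≤ C := by
  obtain ⟨h1, h0, h2⟩ := siteLaw_values hs0 hs1 ho0 ho1
  have : ENNReal.ofReal (phi d r (o * s) (1 - o)) ≤ ENNReal.ofReal C := by
    rw [← ofReal_phi, event_eq, meas_iUnion_finEvent (rule_mono d r)]
    apply iSup_le
    intro W
    refine (measure_mono (finEvent_mono (rule_mono d r) 0 (Finset.subset_insert 0 W))).trans ?_
    have hm := meas_finEvent (siteLaw (o * s) (1 - o)) hs0 hs1 ho0 ho1 h1 h0 h2 (rule d r)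
      (insert 0 W) 0
    show Measure.infinitePi (fun _ : Fin d → ℤ => siteLaw (o * s) (1 - o))
      (finEvent (rule d r) (insert 0 W) 0) ≤ ENNReal.ofReal C
    rw [hm]
    exact ENNReal.ofReal_le_ofReal (h _ (Finset.mem_insert_self 0 W))
  exact (ENNReal.ofReal_le_ofReal_iff hC).mp this

lemma phi_mono_p (d r : ℕ) {p p' q : ℝ} (hq : q < 1) (hq0 : 0 ≤ q) (hp : 0 ≤ p) (hpp : p ≤ p')
    (hp' : p' ≤ 1 - q) : phi d r p q ≤ phi d r p' q := by
  have ho : 0 < 1 - q := by linarith
  have e1 : (1 - q) * (p / (1 - q)) = p := by field_simp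
  have e2 : (1 - q) * (p' / (1 - q)) = p' := by field_simp
  have e3 : 1 - (1 - q) = q := by ring
  have hs0 : 0 ≤ p / (1 - q) := by positivity
  have hss : p / (1 - q) ≤ p' / (1 - q) := by
    apply div_le_div_of_nonneg_right hpp ho.le
  have hs1 : p' / (1 - q) ≤ 1 := by
    rw [div_le_one ho]; exact hp'
  have := phi_le_of_phiF_le d r (s := p / (1 - q)) (o := 1 - q) hs0 (hss.trans hs1) ho.le
    (by linarith) (C := phi d r p' q) (phi_nonneg _ _ _ _) (fun W _ => by
      refine (phiF_mono (rule_mono d r) hs0 hss hs1 ho.le (le_refl _) (by linarith) W 0).trans ?_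
      have := phiF_le_phi d r (s := p' / (1 - q)) (o := 1 - q) (hs0.trans hss) hs1 ho.le
        (by linarith) W 0
      rwa [e2, e3] at this)
  rwa [e1, e3] at this

/-- Main analytic step: smallness at `q'` gives a linear bound at every `q > q'`. -/
theorem linear_bound (d r : ℕ) {q' q : ℝ} (hq'0 : 0 ≤ q') (hqq : q' < q) (hq1 : q < 1)
    (hlim : Tendsto (fun p => phi d r p q') (𝓝[>] (0 : ℝ)) (𝓝 0)) :
    ∃ C : ℝ, 0 ≤ C ∧ ∃ δ : ℝ, 0 < δ ∧ ∀ p : ℝ, 0 < p → p < δ → phi d r p q ≤ C * p := by
  set o2 : ℝ := 1 - q' with ho2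
  set o1 : ℝ := 1 - q with ho1
  set κ : ℝ := q - q' with hκ
  have hκ0 : 0 < κ := by linarith
  have hκo : κ ≤ o2 := by linarith
  have ho1p : 0 < o1 := by linarith
  have ho2p : 0 < o2 := by linarith
  have hε0 : 0 < κ * Real.exp (-κ) / 2 := by positivity
  -- choose p0
  have hev : ∀ᶠ p in 𝓝[>] (0 : ℝ), phi d r p q' < κ * Real.exp (-κ) / 2 :=
    hlim.eventually (gt_mem_nhds hε0)
  have hev2 : ∀ᶠ p in 𝓝[>] (0 : ℝ), p ∈ Set.Ioo (0 : ℝ) o2 := Ioo_mem_nhdsGT ho2p
  obtain ⟨p0, hp0a, hp0b⟩ := (hev.and hev2).exists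
  set s0 : ℝ := p0 / o2 with hs0
  have hs0p : 0 < s0 := div_pos hp0b.1 ho2p
  have hs01 : s0 ≤ 1 := by
    rw [hs0, div_le_one ho2p]; exact hp0b.2.le
  have e0 : o2 * s0 = p0 := by rw [hs0]; field_simp
  have e0' : 1 - o2 = q' := by rw [ho2]; ring
  refine ⟨κ / s0 / o1, by positivity, o1 * s0, by positivity, ?_⟩
  intro p hp0 hpδ
  set s : ℝ := p / o1 with hs
  have hsp : 0 < s := div_pos hp0 ho1p
  have hss0 : s < s0 := by
    rw [hs, div_lt_iff₀ ho1p]; linarith [mul_comm o1 s0]
  have e1 : o1 * s = p := by rw [hs]; field_simp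
  have e1' : 1 - o1 = q := by rw [ho1]; ring
  have hb := phi_le_of_phiF_le d r (s := s) (o := o1) hsp.le (hss0.le.trans hs01) ho1p.le
    (by linarith) (C := κ / s0 / o1 * p) (by positivity) (fun W hW => by
      have hk := key (rule_mono d r) W (s0 := s0) (o2 := o2) (κ := κ)
        (ε0 := κ * Real.exp (-κ) / 2) hs0p.le hs01 (by linarith) hκ0 hκo (by linarith)
        (fun z _ => by
          have := phiF_le_phi d r (s := s0) (o := o2) hs0p.le hs01 ho2p.le (by linarith) W z
          rw [e0, e0'] at this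
          linarith) (Real.log (s0 / s)) (Real.log_nonneg (by
            rw [le_div_iff₀ hsp]; linarith)) 0 hW
      have hexp : Real.exp (-Real.log (s0 / s)) = s / s0 := by
        rw [Real.exp_neg, Real.exp_log (by positivity)]
        field_simp
      rw [hexp] at hk
      have e2 : s0 * (s / s0) = s := by field_simp
      rw [e2] at hk
      have hss1 : s / s0 ≤ 1 := by rw [div_le_one hs0p]; exact hss0.le
      have hss2 : 0 ≤ s / s0 := by positivity
      have hmono := phiF_mono (rule_mono d r) (s := s) (s' := s) (o := o1)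
        (o' := o2 - κ * (1 - s / s0)) hsp.le (le_refl s) (hss0.le.trans hs01) ho1p.le
        (by rw [ho1, ho2, hκ]; nlinarith) (by nlinarith) W 0
      refine hmono.trans (hk.trans (le_of_eq ?_))
      rw [hs]
      field_simp)
  rwa [e1, e1'] at hb

/-! ### Inadmissible parameters -/

lemma phi_eq_zero (d r : ℕ) {p q : ℝ} (h : 1 < p + q) : phi d r p q = 0 := by
  have hlaw : siteLaw p q = Measure.dirac 2 := by
    unfold siteLaw
    rw [if_neg]
    rintro ⟨_, _, h3⟩
    linarith
  unfold phi
  have hfun : (fun _ : Fin d → ℤ => siteLaw p q) = fun _ : Fin d → ℤ => Measure.dirac 2 := by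
    funext _
    exact hlaw
  rw [hfun, Measure.infinitePi_dirac (fun _ : Fin d → ℤ => (2 : Fin 3))]
  rw [measureReal_def, Measure.dirac_apply' _ (measurableSet_event d r 0)]
  have hnot : (fun _ : Fin d → ℤ => (2 : Fin 3)) ∉
      {c : (Fin d → ℤ) → Fin 3 | ∃ t : ℕ, (0 : Fin d → ℤ) ∈ occ d r c t} := by
    rintro ⟨t, ht⟩
    have key : ∀ t : ℕ, ∀ x, x ∉ occ d r (fun _ : Fin d → ℤ => (2 : Fin 3)) t := by
      intro t
      induction t with
      | zero =>
        intro x hx
        have : (2 : Fin 3) = 1 := hx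
        exact absurd this (by decide)
      | succ t ih =>
        rintro x (hx | ⟨hx, _⟩)
        · exact ih x hx
        · have h20 : (2 : Fin 3) = 0 := hx
          exact absurd h20 (by decide)
    exact key t 0 ht
  simp [hnot]

lemma phiPlus_one (d r : ℕ) : phiPlus d r 1 = 0 := by
  unfold phiPlus
  apply Tendsto.limUnder_eq
  apply tendsto_const_nhds.congr'
  filter_upwards [self_mem_nhdsWithin] with p hp
  rw [phi_eq_zero d r (by have : (0 : ℝ) < p := hp; linarith)]

/-- The limit defining `φ⁺` exists. -/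
lemma tendsto_phiPlus (d r : ℕ) {q : ℝ} (hq0 : 0 ≤ q) (hq1 : q < 1) :
    Tendsto (fun p => phi d r p q) (𝓝[>] (0 : ℝ)) (𝓝 (phiPlus d r q)) := by
  have ho : 0 < 1 - q := by linarith
  set f : ℝ → ℝ := fun p => phi d r (min p (1 - q)) q with hf
  have hmono : MonotoneOn f (Set.Ioi 0) := by
    intro a ha b hb hab
    have ha' : (0 : ℝ) < a := ha
    apply phi_mono_p d r hq1 hq0
    · exact le_min ha'.le ho.le
    · exact min_le_min_right _ hab
    · exact min_le_right _ _
  have hbdd : BddBelow (f '' Set.Ioi 0) := ⟨0, by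
    rintro _ ⟨a, _, rfl⟩
    exact phi_nonneg _ _ _ _⟩
  have hT := hmono.tendsto_nhdsGT hbdd
  have hcong : f =ᶠ[𝓝[>] (0 : ℝ)] fun p => phi d r p q := by
    filter_upwards [Ioo_mem_nhdsGT ho] with p hp
    simp only [hf]
    rw [min_eq_left hp.2.le]
  have hT' := hT.congr' hcong
  have : phiPlus d r q = sInf (f '' Set.Ioi 0) := by
    unfold phiPlus
    exact hT'.limUnder_eq
  rw [this]
  exact hT'

theorem gam_lt_top (d r : ℕ) {q : ℝ} (hq : qc d r < q) : gam d r q < ⊤ := by
  by_cases hq1 : 1 ≤ q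
  · have h0 : gam d r q ≤ 0 := by
      unfold gam
      apply limsup_le_of_le
      · isBoundedDefault
      · filter_upwards [self_mem_nhdsWithin] with p hp
        have hp' : (0 : ℝ) < p := hp
        rw [phi_eq_zero d r (by linarith)]
        simp
    exact lt_of_le_of_lt h0 ENNReal.zero_lt_top
  · push Not at hq1
    have hne : {q : ℝ | 0 ≤ q ∧ q ≤ 1 ∧ phiPlus d r q = 0}.Nonempty :=
      ⟨1, by norm_num, le_refl 1, phiPlus_one d r⟩
    obtain ⟨q', ⟨hq'0, hq'1, hq'p⟩, hqq⟩ := exists_lt_of_csInf_lt hne hq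
    have hT := tendsto_phiPlus d r hq'0 (hqq.trans hq1)
    rw [hq'p] at hT
    obtain ⟨C, hC, δ, hδ, hb⟩ := linear_bound d r hq'0 hqq hq1 hT
    have hle : gam d r q ≤ ENNReal.ofReal C := by
      unfold gam
      apply limsup_le_of_le
      · isBoundedDefault
      · filter_upwards [Ioo_mem_nhdsGT hδ] with p hp
        apply ENNReal.ofReal_le_ofReal
        have := hb p hp.1 hp.2
        rw [inv_mul_le_iff₀ hp.1]
        linarith [mul_comm C p]
    exact lt_of_le_of_lt hle ENNReal.ofReal_lt_top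

/-- **No intermediate regime.**  For every dimension `d` and threshold `r` (in particular for
`d = 3`, `r = 2`) there is no `q > q_c` with `γ(q) = ∞`. -/
theorem result (d r : ℕ) : ¬ ∃ q : ℝ, qc d r < q ∧ gam d r q = ⊤ := by
  rintro ⟨q, hq, htop⟩
  exact absurd htop (gam_lt_top d r hq).ne

end Pool.Agent.Results.MP_33582f_pr.SharpSmallP
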